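import Pool.Agent.U660.MD.Ctr
import Pool.Agent.Q57.CX.Top

/-!
# Strong abundance for nef classes, and the finiteness of the contractions, on all the small
# modifications of toroidal models of covers of products of projective spaces

Let `F i` be a form of degree `d i` in `n i + 1` variables whose zero set in the projective
`n i`-space is a smooth hypersurface, and let `H i` be the cyclic hypersurface `w ^ (d i) = F i` in
the projective `(n i + 1)`-space. Let `K` be the function field of a quotient
`Y = (H 1 × ... × H r) / G`, where `G` is any group of diagonal automorphisms
`w i ↦ ζ i * w i`, `ζ i ^ (d i) = 1`. Equivalently, `K` is generated by the affine coordinates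
`x i j / x i 0` of the product of the projective `n i`-spaces and by roots `z j`,
`z j ^ (m j) = ∏ i, (F i (x i) / x i 0 ^ (d i)) ^ (a j i)`, where `m j` divides `a j i * d i`: the
abelian covers of the product of the projective spaces which are branched along the hypersurfaces
`F i = 0` of the factors. There is no condition on the dimensions and the degrees. The toroidal
modifications `X` of `Y` are given by the fans `fan`, and `D 1, ..., D p` are toroidal `ℚ`-Cartier
divisors on `X`; the coefficients of their pullbacks at the prime divisors `P` over `X` are the
`δ i P`. See `Pool.Agent.Results.MP_89a3f8_ag.TerminationOfFlips`, whose definitions (`Smooth`,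
`Admissible`, `InCone`, `IsFan`, `affine`, `minimalOrder`, `multiplicities`, `coefficient`,
`IsSection`, `BasePointFree`, `Semiample`, `IsSmallModification`) are used here.

If `K_Y = 0` the crepant toroidal resolutions `X` of `Y` are Calabi-Yau manifolds (for instance the
resolutions of Borcea-Voisin type of the quotients `(H 1 × ... × H r) / G` of products of Calabi-Yau
hypersurfaces), and so are the varieties `X'` which are obtained from `X` by flops. No condition on `K_Y` is
needed for the theorem.

**The theorem.** There is ONE number `k ≥ 1` with the following properties for all the small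
modifications `X'` of `X` (on which the strict transforms of the `D i` are `ℚ`-Cartier and some
combination of them is ample).
(1) For every integral combination `L` of the `D i` which is nef on `X'` the linear system `|k L|` has no
base points on `X'`. So `L` is the pullback of an ample class under the morphism `g_L : X' → B` with
connected fibres which is defined by the multiples of `k L`.
(2) There are finitely many integral base point free combinations `L j`, with the morphisms
`g_j : X' → B_j`, such that every nef REAL combination `lam` of the `D i` is the pullback of an ample real
class under exactly one of them: there is exactly one `j` such that `c L j - lam` and `c lam - L j` are nef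
for some `c > 0` (`SameFace`). (If this holds, the degree of `lam` on the curves in the fibres of `g_j` is
zero, and `lam` and `c lam - L j` are nonnegative combinations of base point free divisors, so they are
pullbacks of nef classes under `g_j`; so `lam` is the pullback of an ample class. Conversely, if `lam` is the
pullback of an ample class, then `c lam - L j` and `c L j - lam` are pullbacks of ample classes for
`c` large.)
(3) If `L` is integral and `j` is its index then `g_L = g_j`: two prime divisors `P` and `Q` over `X` have
the same centre under `g_L` if and only if they have the same centre under `g_j` (`SameCentre`).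

So the morphism `g` in the question exists, and there are only finitely many morphisms for all nef
classes in the span of the `D i` together. If all `n i ≥ 3` and the `D i` generate the toroidal divisors of a
`ℚ`-factorial `X` then the `D i` span `H²(X', ℚ)` (Lefschetz; this remark is not used and not proved here).

The proof uses the finite generation of the Cox ring (`Q57.CX.main_cox`), the criterion for
semiampleness of `U660/MD/Mod`, and Gordan's lemma; the `L j` are the sums of the generators of the faces
of the nef cone.
-/

set_option autoImplicit false

open FF MvPolynomial Pool.Agent.W602.GT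

namespace Pool.Agent.Results.MP_cfacaa_ag.Contractions

open Pool.Agent.Results.MP_89a3f8_ag.TerminationOfFlips
open Pool.Agent.U660.MD

/-- **Strong abundance and finitely many contractions.** Let `K` be the function field of an abelian
cover `Y` of the product of the projective `n i`-spaces which is branched along smooth hypersurfaces
`F i = 0` of the factors, `X` the toroidal modification of `Y` which is given by `fan`, and `D i`, `i < p`,
toroidal `ℚ`-Cartier divisors on `X` with the degrees `β i t` and the coefficients `c i`. There is `k ≥ 1`
such that for every small modification of `X` (with the coefficients `δ'`)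
(1) `k ν` is base point free for every nef integral combination `ν`;
(2) there are finitely many base point free integral combinations `L j` such that every nef real
combination is in the relative interior of the same face of the nef cone as exactly one `L j`;
(3) the multiples of `k ν` and of `L j`, if `ν` and `L j` are in the relative interior of the same face,
define the same morphism: the same pairs of prime divisors over `X` have the same centre. -/
theorem result (r N R p : ℕ) (n d : Fin r → ℕ) (hr : 1 ≤ r) (hn : ∀ i, 1 ≤ n i)
    (hd : ∀ i, 1 ≤ d i) (hN : N = ∑ i, n i)
    (F : ∀ i, MvPolynomial (Fin (n i + 1)) ℂ) (hF : ∀ i, (F i).IsHomogeneous (d i))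
    (hs : ∀ i, Smooth (F i)) (m : Fin R → ℕ) (hm : ∀ j, 1 ≤ m j) (a : Fin R → Fin r → ℕ)
    (hdiv : ∀ j i, m j ∣ a j i * d i)
    (K : Type) [Field K] [Algebra ℂ K] (x : ∀ i, Fin (n i + 1) → K) (hx0 : ∀ i, x i 0 ≠ 0)
    (hbas : IsTranscendenceBasis ℂ (affine x)) (z : Fin R → K)
    (hz : ∀ j, z j ^ m j = ∏ i, (aeval (x i) (F i) / x i 0 ^ d i) ^ a j i)
    (hgen : IntermediateField.adjoin ℂ (Set.range (affine x) ∪ Set.range z) = ⊤)
    (fan : Finset (Finset (Fin r → ℕ))) (hfan : IsFan m a fan)
    (c : Fin p → (Fin r → ℕ) → ℚ) (hc0 : ∀ i, c i 0 = 0) (β : Fin p → Fin r → ℤ)
    (u : Finset (Fin r → ℕ) → Fin p → Fin r → ℚ)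
    (hlin : ∀ σ ∈ fan, ∀ i v, Admissible m a v → InCone σ v → - c i v = ∑ k, u σ i k * v k)
    (δ : Fin p → Place ℂ K → ℚ) (hδ : ∀ i P, δ i P = coefficient F d x (c i) (β i) P) :
    ∃ k : ℕ, 1 ≤ k ∧ ∀ δ' : Fin p → Place ℂ K → ℚ, IsSmallModification N δ δ' →
      (∀ ν : Fin p → ℤ, IsNef N δ' (fun i => (ν i : ℝ)) → BasePointFree N δ' (k • ν)) ∧
      ∃ (M : ℕ) (L : Fin M → Fin p → ℤ), (∀ j, BasePointFree N δ' (L j)) ∧
        (∀ lam : Fin p → ℝ, IsNef N δ' lam → ∃! j, SameFace N δ' lam (fun i => (L j i : ℝ))) ∧
        ∀ (ν : Fin p → ℤ) (j : Fin M), IsNef N δ' (fun i => (ν i : ℝ)) →
          SameFace N δ' (fun i => (ν i : ℝ)) (fun i => (L j i : ℝ)) →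
          ∀ P Q : Place ℂ K, Divisorial N P → Divisorial N Q →
            (SameCentre N δ' (k • ν) P Q ↔ SameCentre N δ' (L j) P Q) :=
  contr_main (Pool.Agent.Q57.CX.main_cox (N := N) hr hn hN hd hF hs hx0 hbas hm hdiv hz hgen (S := fan)
    ⟨hfan.adm, hfan.full, hfan.cover⟩ hc0 (u := u) hlin (β := β) hδ)

end Pool.Agent.Results.MP_cfacaa_ag.Contractions
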