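import Pool.Agent.N110.DV.Im
import Pool.Agent.N110.DV.Main
import Pool.Agent.N110.PA.Main

/-!
Divisors on varieties which are dominated by a variety with a lattice of birational self-maps which
preserve the class of a divisor: the numerical dimension is bounded by the growth rank.
-/

set_option autoImplicit false

open FF Pool.Agent.W602.GT Pool.Agent.Y172 Pool.Agent.R887 Pool.Agent.N110 Pool.Agent.N110.DV

/-- Let `X'` be a normal projective variety of dimension `n ≥ 1` with generic point `y'`, and `L'` a
`ℚ`-divisor on `X'`. Let `ℤ ^ r` act by birational self-maps `f_v` of `X'` which are isomorphisms in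
codimension one (on a variety with terminal singularities and torsion canonical class every
birational self-map is one), given by the automorphisms `φ v = f_v^*` of the function field, and
suppose that they preserve the numerical class of `L'` (the divisors `L' - f_v^* L'` are
pseudo-effective for all `v`, hence also their negatives).

Let `X` be a normal projective variety and `L` a `ℚ`-divisor on `X`, and let `X' ⇢ X` be a dominant
generically finite rational map, given by the homomorphism `π` of the function fields, which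
contracts no prime divisors, such that `L' - π^* L` is pseudo-effective (for instance `X = X'` and
`L = L'`, or a finite quotient map and `L' = π^* L`). The map has nothing to do with the maps `f_v`.

(1) If the numerical dimension of `L` is at least `ν` then there is a linear subspace `W` of `ℝ ^ r`
along which the degrees `f_v^* H · H ^ (n - 1)` grow subexponentially, with `dim W ≥ r + ν + 1 - n`
or `W = ℝ ^ r`.

(2) Let `s ≥ 1` be at most the growth rank of the action: the degrees grow subexponentially only
along subspaces of `ℝ ^ r` of codimension at least `s`. For instance `s = r ≥ 1`, if the degrees are at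
least `c exp (δ |v|)` for some `c, δ > 0`, or if the Néron-Severi group of `X'` is finitely generated
(which is the theorem of Néron and Severi) and the first dynamical degree of `f_v` is greater than `1`
for all `v ≠ 0`. Then `s ≤ n - 1`, the numerical dimension of `L` is at most `n - 1 - s`, and so is
the Iitaka dimension. If the Iitaka dimension is at least `n - 1 - s` then the Iitaka dimension and
the numerical dimension of `L` are equal. If `s = n - 1`, `L` is nef and the irregularity of `X` is
zero, then `L` is torsion: `m L` is the divisor of a rational function for some `m ≥ 1`. -/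
theorem Pool.Agent.Results.MP_cfacaa_ag.InvariantClassRank.result
    {K K' : Type} [Field K] [Algebra ℂ K] [Field K'] [Algebra ℂ K'] {N N' n : ℕ}
    {y : Fin (N + 1) → K} {y' : Fin (N' + 1) → K'} (hy : NormalModel y) (hy' : NormalModel y')
    (hn : Algebra.trdeg ℂ K = n) (hn' : Algebra.trdeg ℂ K' = n) (hn0 : 0 < n)
    {L' : Place ℂ K' → ℚ} (hL' : {P | IsPrimeDivisor y' P ∧ L' P ≠ 0}.Finite)
    {r : ℕ} {φ : (Fin r → ℤ) → (K' ≃ₐ[ℂ] K')} (hφ : ∀ u v, φ (u + v) = φ u * φ v)
    (hiso : ∀ v, PseudoAut (φ v) y') (hcl : ∀ v, ClassLe (φ v) y' L')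
    {L : Place ℂ K → ℚ} (hL : {P | IsPrimeDivisor y P ∧ L P ≠ 0}.Finite) {π : K →ₐ[ℂ] K'}
    (hπ : ImgClassLe π y L y' L') :
    (∀ ν ≤ n, ¬ NuLt y n L ν → ∃ W : Submodule ℝ (Fin r → ℝ),
      (r + ν + 1 ≤ Module.finrank ℝ W + n ∨ W = ⊤) ∧ ∀ w ∈ W, Subexp φ y' n w) ∧
    ∀ s : ℕ, 0 < s → (GrowthRankGe φ y' n s ∨ (s = r ∧ (ExpGrowth φ y' n ∨
        (NeronSeveri y' ∧ ∀ v, v ≠ 0 → 1 < dynDegree (φ v) y' n 1)))) →
      s < n ∧ NuLt y n L (n - s) ∧ ¬ IitakaGe y L (n - s) ∧
        (IitakaGe y L (n - s - 1) → AbundantD y n L) ∧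
        (s + 1 = n → NefD y n L → IrregularityZero y → ∃ m : ℕ, 1 ≤ m ∧ ∃ g : K, g ≠ 0 ∧
          ∀ P, IsPrimeDivisor y P → (P.ord g : ℚ) = m * L P) := by
  refine ⟨fun ν hν hnum => ?_, fun s hs hrank => ?_⟩
  · exact rank_spaceD hy' hn' hn0 hL' hφ hiso hcl hν fun h =>
      hnum (nuLt_img hy hy' hn hn' hπ hν h)
  have hrank' : GrowthRankGe φ y' n s := by
    rcases hrank with h | ⟨rfl, h | ⟨hN, hent⟩⟩
    · exact h
    · exact RK.growthRank_of_exp h
    · exact RK.growthRank_of_exp (PA.growthN hy' hn' hn0 hN hs hφ hiso hent)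
  obtain ⟨h1, h2'⟩ := rank_mainD hy' hn' hn0 hL' hs hφ hiso hcl hrank'
  have h2 := nuLt_img hy hy' hn hn' hπ (Nat.sub_le _ _) h2'
  refine ⟨h1, h2, iitaka_lt hy hn (Nat.sub_le _ _) h2, fun h => ⟨n - s - 1, h, ?_⟩, ?_⟩
  · rwa [show n - s - 1 + 1 = n - s by omega]
  · intro h3 hnef hq
    rw [show n - s = 1 by omega] at h2
    obtain ⟨m, hm, g, hg0, hg⟩ := trivialD hy hn hn0 hL hq hnef h2
    refine ⟨m, hm, g⁻¹, inv_ne_zero hg0, fun P hP => ?_⟩
    have h4 := hg P hP
    rw [P.ord_inv]
    push_cast
    linarith
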