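import Pool.Agent.U660.MD.Ctr
import Pool.Agent.U189.ND.Defs

/-!
# Strong abundance for nef classes, and the finiteness of the contractions, on all the small
# modifications of toroidal models of covers branched along normal crossing hypersurfaces

**The varieties.** Let `F k`, `k = 0, ..., n`, be forms of degrees `d k` in `n + 1` variables whose
zero sets in the projective `n`-space are smooth hypersurfaces with normal crossings, `Y` a normal
abelian cover of the projective space which is branched only along these hypersurfaces, and `X` the
toroidal modification of `Y` which is given by `fan` (see `Pool/Agent/U189/ND/Defs.lean`, where the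
definitions `NormalCrossings`, `Admissible`, `InCone`, `IsFan`, `affine`, `minimalOrder`,
`multiplicities` and `coefficient` are explained). `D 1, ..., D p` are toroidal `ℚ`-Cartier divisors on
`X`; the coefficients of their pullbacks at the prime divisors `P` over `X` are the `δ i P`.

**Calabi-Yau manifolds.** `K_Y` is torsion if and only if `∑ k, d k * (1 - 1 / e k) = n + 1`, where `e k` is
the ramification index over `F k = 0`; then the crepant toroidal resolutions `X` of `Y` are Calabi-Yau
manifolds, for instance the crepant resolutions of the double covers of the projective `n`-space
which are branched along a hypersurface of degree `2 (n + 1)` with at most `n + 1` components, which are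
smooth with normal crossings (for `n = 3`: double octic solids). So are the varieties `X'` which are
obtained from `X` by flops, if they are smooth. No condition on `K_Y` is needed for the theorem. If `n ≥ 3`,
if every generator of a ray has at most `n - 1` positive coordinates and if the `D i` generate the toroidal
divisors of a `ℚ`-factorial `X`, then the `D i` span `H²(X', ℚ)` (Lefschetz; this remark is not used and
not proved here).

**The theorem.** There is ONE number `k ≥ 1` with the following properties for all the small
modifications `X'` of `X` (on which the strict transforms of the `D i` are `ℚ`-Cartier and some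
combination of them is ample).
(1) For every integral combination `L` of the `D i` which is nef on `X'` the linear system `|k L|` has no
base points on `X'`. So `L` is the pullback of an ample class under the morphism `g_L : X' → B` with
connected fibres which is defined by the multiples of `k L`.
(2) There are finitely many integral base point free combinations `L j`, with the morphisms
`g_j : X' → B_j`, such that every nef REAL combination `lam` of the `D i` is the pullback of an ample real
class under exactly one of them: there is exactly one `j` such that `c L j - lam` and `c lam - L j` are nef
for some `c > 0` (`SameFace`).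
(3) If `L` is integral and `j` is its index then `g_L = g_j`: two prime divisors `P` and `Q` over `X` have
the same centre under `g_L` if and only if they have the same centre under `g_j` (`SameCentre`).

So the morphism `g` in the question exists, and there are only finitely many morphisms for all nef
classes in the span of the `D i` together.

**Proof.** New is the finite generation of the Cox ring of `X` (`Pool/Agent/U189/NF`). The deduction
from the finite generation is the library of `helper660` (`Pool/Agent/U660/MD/Ctr`), which was used in
`MP_cfacaa_ag.Contractions` for another class: the covers of products of projective spaces with one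
smooth hypersurface in each factor. Here several hypersurfaces with normal crossings are in the
same projective space. Part (1) is also in `MP_cda8c3_ag.NormalCrossingModels`.
-/

set_option autoImplicit false

open FF MvPolynomial Pool.Agent.W602.GT

namespace Pool.Agent.Results.MP_cfacaa_ag.NormalCrossingModels

open Pool.Agent.Results.MP_89a3f8_ag.TerminationOfFlips
  (IsSection BasePointFree Semiample IsSmallModification)
open Pool.Agent.U660.MD Pool.Agent.U189.ND

/-- **Strong abundance and finitely many contractions.** Let `K` be the function field of an abelian
cover `Y` of the projective `n`-space which is branched along `n + 1` hypersurfaces `F k = 0` with normal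
crossings, `X` the toroidal modification of `Y` which is given by `fan`, and `D i`, `i < p`, toroidal
`ℚ`-Cartier divisors on `X` with the degrees `β i` and the coefficients `c i`. There is `k ≥ 1` such that
for every small modification of `X` (with the coefficients `δ'`)
(1) `k ν` is base point free for every nef integral combination `ν`;
(2) there are finitely many base point free integral combinations `L j` such that every nef real
combination is in the relative interior of the same face of the nef cone as exactly one `L j`;
(3) the multiples of `k ν` and of `L j`, if `ν` and `L j` are in the relative interior of the same face,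
define the same morphism: the same pairs of prime divisors over `X` have the same centre. -/
theorem result (n R p : ℕ) (hn : 1 ≤ n) (d : Fin (n + 1) → ℕ) (hd : ∀ k, 1 ≤ d k)
    (F : Fin (n + 1) → MvPolynomial (Fin (n + 1)) ℂ) (hF : ∀ k, (F k).IsHomogeneous (d k))
    (hs : NormalCrossings F) (m : Fin R → ℕ) (hm : ∀ j, 1 ≤ m j) (a : Fin R → Fin (n + 1) → ℕ)
    (hdiv : ∀ j, m j ∣ ∑ k, a j k * d k)
    (K : Type) [Field K] [Algebra ℂ K] (x : Fin (n + 1) → K) (hx0 : x 0 ≠ 0)
    (hbas : IsTranscendenceBasis ℂ (affine x)) (z : Fin R → K)
    (hz : ∀ j, z j ^ m j = ∏ k, (aeval x (F k) / x 0 ^ d k) ^ a j k)
    (hgen : IntermediateField.adjoin ℂ (Set.range (affine x) ∪ Set.range z) = ⊤)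
    (fan : Finset (Finset (Fin (n + 1) → ℕ))) (hfan : IsFan m a fan)
    (c : Fin p → (Fin (n + 1) → ℕ) → ℚ) (hc0 : ∀ i, c i 0 = 0) (β : Fin p → ℤ)
    (u : Finset (Fin (n + 1) → ℕ) → Fin p → Fin (n + 1) → ℚ)
    (hlin : ∀ σ ∈ fan, ∀ i v, Admissible m a v → InCone σ v → - c i v = ∑ k, u σ i k * v k)
    (δ : Fin p → Place ℂ K → ℚ) (hδ : ∀ i P, δ i P = coefficient F d x (c i) (β i) P) :
    ∃ k : ℕ, 1 ≤ k ∧ ∀ δ' : Fin p → Place ℂ K → ℚ, IsSmallModification n δ δ' →
      (∀ ν : Fin p → ℤ, IsNef n δ' (fun i => (ν i : ℝ)) → BasePointFree n δ' (k • ν)) ∧
      ∃ (M : ℕ) (L : Fin M → Fin p → ℤ), (∀ j, BasePointFree n δ' (L j)) ∧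
        (∀ lam : Fin p → ℝ, IsNef n δ' lam → ∃! j, SameFace n δ' lam (fun i => (L j i : ℝ))) ∧
        ∀ (ν : Fin p → ℤ) (j : Fin M), IsNef n δ' (fun i => (ν i : ℝ)) →
          SameFace n δ' (fun i => (ν i : ℝ)) (fun i => (L j i : ℝ)) →
          ∀ P Q : Place ℂ K, Divisorial n P → Divisorial n Q →
            (SameCentre n δ' (k • ν) P Q ↔ SameCentre n δ' (L j) P Q) :=
  contr_main (cox_nc n R p hn d hd F hF hs m hm a hdiv K x hx0 hbas z hz hgen fan hfan c hc0 β u
    hlin δ hδ)

end Pool.Agent.Results.MP_cfacaa_ag.NormalCrossingModels
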